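import Pool.Agent.Results.MP_5e5ff1_ag.WindowsOfSystems
import Pool.Agent.H36PA.Sieve

/-!
# Systems on the thrice punctured line with a parameter: residue classes in which all members have many bad primes

The systems are `f' = (b_q / t + c_q / (t - 1)) f`, `q ∈ ℤ`, with `b_q = b + U (q β_1 + ⋯ + q ^ d β_d)` and
`c_q = c + U (q γ_1 + ⋯ + q ^ d γ_d)`, where `b`, `c` are `r × r` matrices, `U` is an `r × m` matrix and the `β_k`, `γ_k`
are `m × r` matrices over a ring `R`. For almost every tuple `a = (a_j)` of `ℓ_j`-adic integers and all large `T` ALL the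
members with `|q| ≤ T` and `|q - a_j|_{ℓ_j} ≤ T ^ (-σ)` for all `j` have many primes `p ≤ T ^ ω` at which the reduction does not
have `e` independent solutions.
-/

set_option autoImplicit false

namespace Pool.Agent.Results.MP_5e5ff1_ag.SystemsInClasses

open Finset Pool.Agent.Results.MP_5e5ff1_ag.WindowsOfSystems

/-- **Theorem.** Let `1 ≤ m, d`, `d m + g < e`, `α = d m / (e - g) < β ≤ 1`, `s = 1 / (1 + (β - α)² / (α (1 - α)))`
(`s = α` for `β = 1`). Consider a family `b_q`, `c_q` over `R` as in the header and for each prime `p > N₀` a fibre in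
characteristic `p`, in which some member of the family (with a constant parameter) has at most `g` independent
solutions. Let `ℓ_1, …, ℓ_n` be primes and `σ > 0`. There is a set `E` of Hausdorff dimension at most `s / σ` such that for each
`a = (a_j)`, `a_j ∈ ℤ_{ℓ_j}`, outside `E`, each `ω > s`, each `K`, all large `T` and ALL integers `q` with `|q| ≤ T` and
`|q - a_j|_{ℓ_j} ≤ T ^ (-σ)` for all `j`, the sum of `log p / p` over the primes `p ≤ T ^ ω` for which the reduction of the system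
with the parameter `q` does not have `e` independent solutions is larger than `(1 - β) s log T + K`. If the `p`-curvature
vanishes there are `r` independent solutions. -/
theorem result :
    (∀ (r m d g e : ℕ), 1 ≤ m → 1 ≤ d → d * m + g < e → ∀ (β : ℝ) (N₀ : ℕ),
      ((d * m : ℕ) : ℝ) / ((e - g : ℕ) : ℝ) < β → β ≤ 1 →
      ∀ (R : Type) [CommRing R] (ρ : ∀ p : ℕ, p.Prime → N₀ < p → Fibre R p)
        (b c : Matrix (Fin r) (Fin r) R) (U : Matrix (Fin r) (Fin m) R) (B C : Fin d → Matrix (Fin m) (Fin r) R),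
        (∀ p h₁ h₂, ∃ l, (ρ p h₁ h₂).D l = 0 ∧
          ¬ HasSol (ρ p h₁ h₂) (member (ρ p h₁ h₂) b c U B C l) (g + 1)) →
      ∀ (n : ℕ) (ℓ : Fin n → ℕ) [∀ j, Fact (ℓ j).Prime] (σ : ℝ), 0 < σ →
      ∃ E : Set (∀ j : Fin n, ℤ_[ℓ j]),
        dimH E ≤ ENNReal.ofReal (sExp (((d * m : ℕ) : ℝ) / ((e - g : ℕ) : ℝ)) β / σ) ∧
        ∀ a ∉ E, ∀ ω K : ℝ, sExp (((d * m : ℕ) : ℝ) / ((e - g : ℕ) : ℝ)) β < ω →
          ∃ T₀ : ℝ, ∀ T ≥ T₀, ∀ q : ℤ, |(q : ℝ)| ≤ T → (∀ j, ‖(q : ℤ_[ℓ j]) - a j‖ ≤ T ^ (-σ)) →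
            (1 - β) * sExp (((d * m : ℕ) : ℝ) / ((e - g : ℕ) : ℝ)) β * Real.log T + K <
              badSum (fun p h₁ h₂ => HasSol (ρ p h₁ h₂) (member (ρ p h₁ h₂) b c U B C q) e) (T ^ ω)) ∧
    (∀ (R : Type) [CommRing R] (p : ℕ) (_ : p.Prime) (ρ : Fibre R p) (r : ℕ) (M : Matrix (Fin r) (Fin r) ρ.F),
      PCurvZero ρ M → HasSol ρ M r) ∧
    (∀ α : ℝ, 0 < α → α < 1 → sExp α 1 = α) := by
  classical
  refine ⟨?_, WindowsOfSystems.result.2.1, WindowsOfSystems.result.2.2.1⟩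
  intro r m d g e hm hd hg β N₀ hβ hβ1 R _ ρ b c U B C h₀ n ℓ _ σ hσ
  have h1 : 1 ≤ d * m := Nat.mul_pos hd hm
  obtain ⟨α, hα⟩ : ∃ α : ℝ, α = ((d * m : ℕ) : ℝ) / ((e - g : ℕ) : ℝ) := ⟨_, rfl⟩
  rw [← hα] at hβ ⊢
  have hα0 : 0 < α := by
    have : (0 : ℝ) < ((d * m : ℕ) : ℝ) := by exact_mod_cast h1
    have : (0 : ℝ) < ((e - g : ℕ) : ℝ) := by
      have : 0 < e - g := by omega
      exact_mod_cast this
    rw [hα]
    positivity
  have hα1 : α < 1 := lt_of_lt_of_le hβ hβ1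
  have hm1 : 1 < 1 + (β - α) ^ 2 / (α * (1 - α)) := by
    have : 0 < (β - α) ^ 2 / (α * (1 - α)) := by
      apply div_pos
      · have : 0 < β - α := by linarith
        positivity
      · exact mul_pos hα0 (by linarith)
    linarith
  refine H36PA.classes_of_sieve ℓ
    (fun q Y => badSum (fun p h₁ h₂ => HasSol (ρ p h₁ h₂) (member (ρ p h₁ h₂) b c U B C q) e) Y)
    (fun q Y Z h => badSum_mono _ h) hm1 hβ1 ?_ hσ
  intro θ' K hθ'
  rw [hα] at hβ hθ'
  obtain ⟨C', hC⟩ := Pool.Agent.TH924.PC.deviate (n := e - g) (d := d * m) (P₁ := N₀) h1 (by omega) K hβ hβ1 hθ'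
  refine ⟨C', fun X hX => ?_⟩
  have h := hC (fun p q => ∀ (h₁ : p.Prime) (h₂ : N₀ < p),
    HasSol (ρ p h₁ h₂) (member (ρ p h₁ h₂) b c U B C q) e) ?_ X hX
  · have hb : ∀ q : ℤ, badSum (fun p h₁ h₂ => HasSol (ρ p h₁ h₂) (member (ρ p h₁ h₂) b c U B C q) e) (X ^ θ') =
        ∑ p ∈ Icc 1 ⌊X ^ θ'⌋₊ with p.Prime ∧ ¬ (∀ (h₁ : p.Prime) (h₂ : N₀ < p),
          HasSol (ρ p h₁ h₂) (member (ρ p h₁ h₂) b c U B C q) e), Real.log p / p := by
      intro q
      unfold badSum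
      refine Finset.sum_congr (Finset.filter_congr fun p _ => ?_) (fun _ _ => rfl)
      constructor
      · rintro ⟨h₁, h₂, h₃⟩
        exact ⟨h₁, fun h => h₃ (h h₁ h₂)⟩
      · rintro ⟨_, h₂⟩
        push Not at h₂
        exact h₂
    simp only [hb]
    convert h
  · intro p hp hN T hT
    exact classes (ρ p hp hN) hp hd (by omega) b c U B C (h₀ p hp hN) T fun t ht => by
      obtain ⟨q, hq, h⟩ := hT t ht
      exact ⟨q, hq, h hp hN⟩

end Pool.Agent.Results.MP_5e5ff1_ag.SystemsInClasses
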