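import Pool.Agent.Results.MP_5e5ff1_ag.WindowsOfSystems
import Pool.Agent.V11265.NS

/-!
# Systems on the thrice punctured line: all parameters near the powers of almost every real number have many bad primes

The systems are `f' = (b_q / t + c_q / (t - 1)) f`, `q ∈ ℤ`, with `b_q = b + U (q β_1 + ⋯ + q ^ d β_d)` and
`c_q = c + U (q γ_1 + ⋯ + q ^ d γ_d)`, where `b`, `c` are `r × r` matrices, `U` is an `r × m` matrix and the `β_k`, `γ_k`
are `m × r` matrices over a ring `R`, for instance a ring of integers with finitely many primes inverted (see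
`WindowsOfSystems`). For almost every real `x > 1`, for ALL these families of systems of a countable set (for example all
families over all rings of integers of number fields with finitely many primes inverted) and all but finitely many
integers `q` with `|q|` near a power of `x` the sum of `log p / p` over the bad primes `p ≤ |q| ^ ω` is large.
-/

set_option autoImplicit false

namespace Pool.Agent.Results.MP_5e5ff1_ag.SystemsNearPowers

open Finset
open Pool.Agent.V11001.KM (Fast Near)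
open Pool.Agent.Results.MP_5e5ff1_ag.WindowsOfSystems

/-- the integers `q ≠ 0` for which the sum of `log p / p` over the primes `N₀ < p ≤ |q| ^ ω` without the property `P q` is
at most `c log |q| + K` -/
def Few {N₀ : ℕ} (P : ℤ → ∀ p : ℕ, p.Prime → N₀ < p → Prop) (c ω K : ℝ) : Set ℤ :=
  {q : ℤ | q ≠ 0 ∧ badSum (P q) (|(q : ℝ)| ^ ω) ≤ c * Real.log |(q : ℝ)| + K}

/-- the sieve bound for one family -/
lemma sieve {r m d g e : ℕ} (hm : 1 ≤ m) (hd : 1 ≤ d) (hg : d * m + g < e) {β : ℝ}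
    (hβ : ((d * m : ℕ) : ℝ) / ((e - g : ℕ) : ℝ) < β) (hβ1 : β ≤ 1) (N₀ : ℕ)
    (R : Type) [CommRing R] (ρ : ∀ p : ℕ, p.Prime → N₀ < p → Fibre R p)
    (b c : Matrix (Fin r) (Fin r) R) (U : Matrix (Fin r) (Fin m) R) (B C : Fin d → Matrix (Fin m) (Fin r) R)
    (h₀ : ∀ p h₁ h₂, ∃ l, (ρ p h₁ h₂).D l = 0 ∧
      ¬ HasSol (ρ p h₁ h₂) (member (ρ p h₁ h₂) b c U B C l) (g + 1)) (θ' K : ℝ)
    (hθ' : 1 < θ' * (1 + (β - ((d * m : ℕ) : ℝ) / ((e - g : ℕ) : ℝ)) ^ 2 /
      (((d * m : ℕ) : ℝ) / ((e - g : ℕ) : ℝ) * (1 - ((d * m : ℕ) : ℝ) / ((e - g : ℕ) : ℝ))))) :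
    ∃ C' : ℝ, ∀ X : ℝ, 2 ≤ X →
      (Set.ncard {q : ℤ | |(q : ℝ)| ≤ X ∧
        badSum (fun p h₁ h₂ => HasSol (ρ p h₁ h₂) (member (ρ p h₁ h₂) b c U B C q) e) (X ^ θ') ≤
          (1 - β) * θ' * Real.log X + K} : ℝ) ≤ C' * X ^ θ' := by
  classical
  have h1 : 1 ≤ d * m := Nat.mul_pos hd hm
  obtain ⟨C', hC⟩ := Pool.Agent.TH924.PC.deviate (n := e - g) (d := d * m) (P₁ := N₀) h1 (by omega) K hβ hβ1 hθ'
  refine ⟨C', fun X hX => ?_⟩
  have h := hC (fun p q => ∀ (h₁ : p.Prime) (h₂ : N₀ < p),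
    HasSol (ρ p h₁ h₂) (member (ρ p h₁ h₂) b c U B C q) e) ?_ X hX
  · have hb : ∀ q : ℤ, badSum (fun p h₁ h₂ => HasSol (ρ p h₁ h₂) (member (ρ p h₁ h₂) b c U B C q) e) (X ^ θ') =
        ∑ p ∈ Icc 1 ⌊X ^ θ'⌋₊ with p.Prime ∧ ¬ (∀ (h₁ : p.Prime) (h₂ : N₀ < p),
          HasSol (ρ p h₁ h₂) (member (ρ p h₁ h₂) b c U B C q) e), Real.log p / p := by
      intro q
      unfold badSum
      refine Finset.sum_congr (Finset.filter_congr fun p _ => ?_) (fun _ _ => rfl)
      constructor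
      · rintro ⟨h₁, h₂, h₃⟩
        exact ⟨h₁, fun h => h₃ (h h₁ h₂)⟩
      · rintro ⟨_, h₂⟩
        push Not at h₂
        exact h₂
    simp only [hb]
    convert h
  · intro p hp hN T hT
    exact classes (ρ p hp hN) hp hd (by omega) b c U B C (h₀ p hp hN) T fun t ht => by
      obtain ⟨q, hq, h⟩ := hT t ht
      exact ⟨q, hq, h hp hN⟩

/-- **Theorem.** Let `1 ≤ m, d`, `d m + g < e`, `α = d m / (e - g) < β ≤ 1`, `s = 1 / (1 + (β - α)² / (α (1 - α)))`
(`s = α` for `β = 1`). Let `j` run through a countable set; for each `j` let a family `b_q`, `c_q` over a ring `R_j` as in the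
header be given and for each prime `p > N₀ j` a fibre in characteristic `p`, in which some member of the family (with a
constant parameter) has at most `g` independent solutions. Let `ν n / log n → ∞` and let `V` be a countable set of real
numbers. (1) For `θ < 1` there is a set `E` of Hausdorff dimension at most `s / (1 - θ)` such that for each `x > 1` outside
`E`, each positive `y` in `V`, ALL `j`, all `ω > s` and all `K`: for all but finitely many integers `q ≠ 0` with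
`| |q| - y x ^ (ν n) | ≤ x ^ (θ ν n)` for some `n`, the sum of `log p / p` over the primes `p ≤ |q| ^ ω` for which the
reduction of the system with the parameter `q` does not have `e` independent solutions is larger than
`(1 - β) s log |q| + K`. (2) For almost every `x > 1` this holds for all `θ < 1 - s`. -/
theorem result (r m d g e : ℕ) (hm : 1 ≤ m) (hd : 1 ≤ d) (hg : d * m + g < e) (β : ℝ)
    (hβ : ((d * m : ℕ) : ℝ) / ((e - g : ℕ) : ℝ) < β) (hβ1 : β ≤ 1)
    (J : Type) [Countable J] (N₀ : J → ℕ) (R : J → Type) [∀ j, CommRing (R j)]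
    (ρ : ∀ (j : J) (p : ℕ), p.Prime → N₀ j < p → Fibre (R j) p)
    (b c : ∀ j, Matrix (Fin r) (Fin r) (R j)) (U : ∀ j, Matrix (Fin r) (Fin m) (R j))
    (B C : ∀ j, Fin d → Matrix (Fin m) (Fin r) (R j))
    (h₀ : ∀ (j : J) (p : ℕ) (h₁ : p.Prime) (h₂ : N₀ j < p), ∃ l, (ρ j p h₁ h₂).D l = 0 ∧
      ¬ HasSol (ρ j p h₁ h₂) (member (ρ j p h₁ h₂) (b j) (c j) (U j) (B j) (C j) l) (g + 1))
    (ν : ℕ → ℝ) (hν : Fast ν) (V : Set ℝ) (hV : V.Countable) :
    (∀ θ : ℝ, θ < 1 →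
      ∃ E : Set ℝ, dimH E ≤ ENNReal.ofReal (sExp (((d * m : ℕ) : ℝ) / ((e - g : ℕ) : ℝ)) β / (1 - θ)) ∧
        ∀ x : ℝ, 1 < x → x ∉ E → ∀ y ∈ V, 0 < y → ∀ (j : J) (ω K : ℝ),
          sExp (((d * m : ℕ) : ℝ) / ((e - g : ℕ) : ℝ)) β < ω →
          {q : ℤ | q ∈ Few (fun (q : ℤ) (p : ℕ) (h₁ : p.Prime) (h₂ : N₀ j < p) =>
              HasSol (ρ j p h₁ h₂) (member (ρ j p h₁ h₂) (b j) (c j) (U j) (B j) (C j) q) e)
              ((1 - β) * sExp (((d * m : ℕ) : ℝ) / ((e - g : ℕ) : ℝ)) β) ω K ∧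
            Near ν θ y x |(q : ℝ)|}.Finite) ∧
    (∀ᵐ x : ℝ, 1 < x → ∀ θ : ℝ, θ < 1 - sExp (((d * m : ℕ) : ℝ) / ((e - g : ℕ) : ℝ)) β → ∀ y ∈ V, 0 < y →
        ∀ (j : J) (ω K : ℝ), sExp (((d * m : ℕ) : ℝ) / ((e - g : ℕ) : ℝ)) β < ω →
          {q : ℤ | q ∈ Few (fun (q : ℤ) (p : ℕ) (h₁ : p.Prime) (h₂ : N₀ j < p) =>
              HasSol (ρ j p h₁ h₂) (member (ρ j p h₁ h₂) (b j) (c j) (U j) (B j) (C j) q) e)
              ((1 - β) * sExp (((d * m : ℕ) : ℝ) / ((e - g : ℕ) : ℝ)) β) ω K ∧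
            Near ν θ y x |(q : ℝ)|}.Finite) := by
  have h1 : 1 ≤ d * m := Nat.mul_pos hd hm
  set α : ℝ := ((d * m : ℕ) : ℝ) / ((e - g : ℕ) : ℝ) with hα
  have hα0 : 0 < α := by
    have : (0 : ℝ) < ((d * m : ℕ) : ℝ) := by exact_mod_cast h1
    have : (0 : ℝ) < ((e - g : ℕ) : ℝ) := by
      have : 0 < e - g := by omega
      exact_mod_cast this
    positivity
  have hα1 : α < 1 := lt_of_lt_of_le hβ hβ1
  have hm1 : 1 < 1 + (β - α) ^ 2 / (α * (1 - α)) := by
    have : 0 < (β - α) ^ 2 / (α * (1 - α)) := by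
      apply div_pos
      · have : 0 < β - α := by linarith
        positivity
      · exact mul_pos hα0 (by linarith)
    linarith
  exact Pool.Agent.V11265.NS.near_of_sieve
    (fun (j : J) (q : ℤ) (Y : ℝ) => badSum (fun (p : ℕ) (h₁ : p.Prime) (h₂ : N₀ j < p) =>
      HasSol (ρ j p h₁ h₂) (member (ρ j p h₁ h₂) (b j) (c j) (U j) (B j) (C j) q) e) Y)
    (fun j q Y Z h => badSum_mono _ h) hm1 hβ1
    (fun j θ' K hθ' => sieve hm hd hg hβ hβ1 (N₀ j) (R j) (ρ j) (b j) (c j) (U j) (B j) (C j) (h₀ j) θ' K hθ')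
    hν V hV

end Pool.Agent.Results.MP_5e5ff1_ag.SystemsNearPowers
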