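import Pool.Agent.V11263.PCu.Ops
import Pool.Agent.V11263.PCu.Win

/-!
# Systems on the thrice punctured line with a parameter: windows in which all members have many bad primes

The systems are `f' = (b_q / t + c_q / (t - 1)) f`, `q ∈ ℤ`, with `b_q = b + U (q β_1 + ⋯ + q ^ d β_d)` and
`c_q = c + U (q γ_1 + ⋯ + q ^ d γ_d)`, where `b`, `c` are `r × r` matrices, `U` is an `r × m` matrix and the `β_k`, `γ_k`
are `m × r` matrices over a ring `R`, for instance a ring of integers with finitely many primes inverted. For each prime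
`p > N₀` a reduction modulo `p` is chosen, for instance a prime ideal `𝔭` over `p`.
-/

set_option autoImplicit false

namespace Pool.Agent.Results.MP_5e5ff1_ag.WindowsOfSystems

open Finset

/-- A fibre in characteristic `p` of the line over `R`: a field `F` of characteristic `p` with a derivation `D = d/dt`,
`D t = 1` and `D ^ p = 0`, and a homomorphism `φ` from `R` to the constants of `F`. For example `F = k(t)`,
`k = R / 𝔭`. -/
structure Fibre (R : Type) [CommRing R] (p : ℕ) where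
  F : Type
  [field : Field F]
  [char : CharP F p]
  D : Derivation ℤ F F
  t : F
  D_t : D t = 1
  D_pow : ∀ f, (⇑D)^[p] f = 0
  φ : R →+* F
  φ_const : ∀ a, D (φ a) = 0

attribute [instance] Fibre.field Fibre.char

variable {R : Type} [CommRing R] {p r m d : ℕ}

/-- the reduction of `b / t + c / (t - 1)` -/
def poles {l : ℕ} (ρ : Fibre R p) (b c : Matrix (Fin l) (Fin r) R) : Matrix (Fin l) (Fin r) ρ.F :=
  (ρ.t)⁻¹ • b.map ρ.φ + (ρ.t - 1)⁻¹ • c.map ρ.φ

/-- the matrix of the member of the family with the parameter `l`: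
`b / t + c / (t - 1) + ∑ l ^ k U (β_k / t + γ_k / (t - 1))` -/
def member (ρ : Fibre R p) (b c : Matrix (Fin r) (Fin r) R) (U : Matrix (Fin r) (Fin m) R)
    (β γ : Fin d → Matrix (Fin m) (Fin r) R) (l : ρ.F) : Matrix (Fin r) (Fin r) ρ.F :=
  poles ρ b c + ∑ k : Fin d, l ^ ((k : ℕ) + 1) • (U.map ρ.φ * poles ρ (β k) (γ k))

/-- `f ↦ f' - M f` -/
def nabla (ρ : Fibre R p) (M : Matrix (Fin r) (Fin r) ρ.F) (f : Fin r → ρ.F) : Fin r → ρ.F :=
  fun i => ρ.D (f i) - ∑ j, M i j * f j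

/-- the `p`-curvature `∇ ^ p` vanishes -/
def PCurvZero (ρ : Fibre R p) (M : Matrix (Fin r) (Fin r) ρ.F) : Prop := ∀ f, (nabla ρ M)^[p] f = 0

/-- `e` solutions in `F ^ r` which are linearly independent over the constants -/
def HasSol (ρ : Fibre R p) (M : Matrix (Fin r) (Fin r) ρ.F) (e : ℕ) : Prop :=
  ∃ f : Fin e → Fin r → ρ.F, (∀ j, nabla ρ M (f j) = 0) ∧
    ∀ a : Fin e → ρ.F, (∀ j, ρ.D (a j) = 0) → (∀ i, ∑ j, a j * f j i = 0) → ∀ j, a j = 0

open Classical in
/-- The sum of `log p / p` over the primes `N₀ < p ≤ Y` which do not have the property `P`. -/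
noncomputable def badSum {N₀ : ℕ} (P : ∀ p : ℕ, p.Prime → N₀ < p → Prop) (Y : ℝ) : ℝ :=
  ∑ p ∈ Icc 1 ⌊Y⌋₊ with ∃ (h₁ : p.Prime) (h₂ : N₀ < p), ¬ P p h₁ h₂, Real.log p / p

/-- the exponent of convergence of the sequence `v` is at most `τ` -/
def ExpLe (v : ℕ → ℝ) (τ : ℝ) : Prop := ∀ t : ℝ, τ < t → Summable (fun n : ℕ => (v n) ^ (-t))

/-- the exponent `1 / (1 + (β - α)² / (α (1 - α)))`; it is `α` for `β = 1` and smaller than one for `β > α` -/
noncomputable def sExp (α β : ℝ) : ℝ := 1 / (1 + (β - α) ^ 2 / (α * (1 - α)))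

lemma badSum_mono {N₀ : ℕ} (P : ∀ p : ℕ, p.Prime → N₀ < p → Prop) {Y Z : ℝ} (h : Y ≤ Z) :
    badSum P Y ≤ badSum P Z := by
  classical
  unfold badSum
  apply Finset.sum_le_sum_of_subset_of_nonneg
  · apply Finset.filter_subset_filter
    exact Finset.Icc_subset_Icc_right (Nat.floor_le_floor h)
  · intro p hp _
    have : 1 ≤ p := (Finset.mem_Icc.1 (Finset.mem_filter.1 hp).1).1
    have h1 : (1 : ℝ) ≤ p := by exact_mod_cast this
    exact div_nonneg (Real.log_nonneg h1) (by linarith)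

/-- the constant given by an element of the prime field -/
noncomputable def cst (ρ : Fibre R p) [Fact p.Prime] (t : ZMod p) : V11263.PCu.KK ρ.D :=
  ⟨ZMod.castHom dvd_rfl ρ.F t, by
    obtain ⟨q, rfl⟩ := ZMod.intCast_surjective t
    show ρ.D _ = 0
    rw [map_intCast, Derivation.map_intCast]⟩

lemma cst_int (ρ : Fibre R p) [Fact p.Prime] (q : ℤ) :
    ((cst ρ (q : ZMod p) : V11263.PCu.KK ρ.D) : ρ.F) = (q : ρ.F) := by
  show ZMod.castHom dvd_rfl ρ.F (q : ZMod p) = _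
  rw [map_intCast]

lemma cst_inj (ρ : Fibre R p) [Fact p.Prime] : Function.Injective (cst ρ) := by
  intro a b h
  have h1 : ZMod.castHom dvd_rfl ρ.F a = ZMod.castHom dvd_rfl ρ.F b := congrArg Subtype.val h
  exact (ZMod.castHom dvd_rfl ρ.F).injective h1

/-- at most `d m p / (e - g)` classes -/
lemma classes (ρ : Fibre R p) (hp : p.Prime) {g e : ℕ} (hd : 1 ≤ d) (hg : g < e)
    (b c : Matrix (Fin r) (Fin r) R) (U : Matrix (Fin r) (Fin m) R) (β γ : Fin d → Matrix (Fin m) (Fin r) R)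
    (h₀ : ∃ l : ρ.F, ρ.D l = 0 ∧ ¬ HasSol ρ (member ρ b c U β γ l) (g + 1))
    (T : Finset (ZMod p)) (hT : ∀ t ∈ T, ∃ q : ℤ, (q : ZMod p) = t ∧ HasSol ρ (member ρ b c U β γ q) e) :
    T.card * (e - g) ≤ d * m * p := by
  classical
  have := Fact.mk hp
  obtain ⟨l₀, hl₀, hns⟩ := h₀
  rw [← Finset.card_image_of_injective T (cst_inj ρ)]
  refine V11263.PCu.loc' (p := p) ρ.D_t ρ.D_pow hd hg (poles ρ b c) (U.map ρ.φ)
    (fun k => poles ρ (β k) (γ k)) l₀ hl₀ ?_ _ ?_
  · intro f hf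
    by_contra hcon
    apply hns
    refine ⟨f, fun j => ?_, ?_⟩
    · funext i
      exact sub_eq_zero.2 (hf j i)
    · intro a ha hs j
      by_contra hj
      exact hcon ⟨a, ha, fun h => hj (congrFun h j), hs⟩
  · intro l hl
    obtain ⟨t, ht, rfl⟩ := Finset.mem_image.1 hl
    obtain ⟨q, rfl, f, hf, hind⟩ := hT t ht
    refine ⟨f, fun j => ?_, hind⟩
    rw [cst_int]
    exact hf j

/-- **Theorem.** Let `1 ≤ m, d`, `d m + g < e`, `α = d m / (e - g) < β ≤ 1`, `s = 1 / (1 + (β - α)² / (α (1 - α)))`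
(`s = α` for `β = 1`). Consider a family `b_q`, `c_q` over `R` as in the header and for each prime `p > N₀` a fibre in
characteristic `p`, in which some member of the family (with a constant parameter) has at most `g` independent
solutions. Let `v ≥ 1` be a sequence of exponent of convergence at most `τ ≥ 0` and `θ < 1`. There is a set `E` of Hausdorff
dimension at most `(s + τ) / (1 - θ)` such that for each `a > 0` outside `E`, each `ω > s`, each `K`, all but finitely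
many `k` and ALL integers `q` with `| |q| - a v_k | ≤ v_k ^ θ`, the sum of `log p / p` over the primes `p ≤ v_k ^ ω` for
which the reduction of the system with the parameter `q` does not have `e` independent solutions is larger than
`(1 - β) s log v_k + K`. If the `p`-curvature vanishes there are `r` independent solutions. -/
theorem result :
    (∀ (r m d g e : ℕ), 1 ≤ m → 1 ≤ d → d * m + g < e → ∀ (β : ℝ) (N₀ : ℕ),
      ((d * m : ℕ) : ℝ) / ((e - g : ℕ) : ℝ) < β → β ≤ 1 →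
      ∀ (R : Type) [CommRing R] (ρ : ∀ p : ℕ, p.Prime → N₀ < p → Fibre R p)
        (b c : Matrix (Fin r) (Fin r) R) (U : Matrix (Fin r) (Fin m) R) (B C : Fin d → Matrix (Fin m) (Fin r) R),
        (∀ p h₁ h₂, ∃ l, (ρ p h₁ h₂).D l = 0 ∧
          ¬ HasSol (ρ p h₁ h₂) (member (ρ p h₁ h₂) b c U B C l) (g + 1)) →
      ∀ (v : ℕ → ℝ) (τ θ : ℝ), (∀ k, 1 ≤ v k) → 0 ≤ τ → ExpLe v τ → θ < 1 →
      ∃ E : Set ℝ, dimH E ≤ ENNReal.ofReal ((sExp (((d * m : ℕ) : ℝ) / ((e - g : ℕ) : ℝ)) β + τ) / (1 - θ)) ∧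
        ∀ a : ℝ, 0 < a → a ∉ E → ∀ ω K : ℝ, sExp (((d * m : ℕ) : ℝ) / ((e - g : ℕ) : ℝ)) β < ω →
          ∃ k₀ : ℕ, ∀ k : ℕ, k₀ ≤ k → ∀ q : ℤ, |(|(q : ℝ)|) - a * v k| ≤ (v k) ^ θ →
            (1 - β) * sExp (((d * m : ℕ) : ℝ) / ((e - g : ℕ) : ℝ)) β * Real.log (v k) + K <
              badSum (fun p h₁ h₂ => HasSol (ρ p h₁ h₂) (member (ρ p h₁ h₂) b c U B C q) e) ((v k) ^ ω)) ∧
    (∀ (R : Type) [CommRing R] (p : ℕ) (_ : p.Prime) (ρ : Fibre R p) (r : ℕ) (M : Matrix (Fin r) (Fin r) ρ.F),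
      PCurvZero ρ M → HasSol ρ M r) ∧
    (∀ α : ℝ, 0 < α → α < 1 → sExp α 1 = α) ∧
    (∀ a : ℝ, 0 < a → ExpLe (fun n : ℕ => ((n : ℝ) + 1) ^ a) (1 / a)) ∧
    (∀ b : ℝ, 1 < b → ExpLe (fun n : ℕ => b ^ n) 0) := by
  classical
  refine ⟨?_, ?_, ?_, fun κ hκ => Pool.Agent.Y854.GM.expLe_pow κ hκ, fun b hb => Pool.Agent.Y854.GM.expLe_geom b hb⟩
  · intro r m d g e hm hd hg β N₀ hβ hβ1 R _ ρ b c U B C h₀ v τ θ hv hτ hE hθ1
    have h1 : 1 ≤ d * m := Nat.mul_pos hd hm
    set α : ℝ := ((d * m : ℕ) : ℝ) / ((e - g : ℕ) : ℝ) with hα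
    have hα0 : 0 < α := by
      have : (0 : ℝ) < ((d * m : ℕ) : ℝ) := by exact_mod_cast h1
      have : (0 : ℝ) < ((e - g : ℕ) : ℝ) := by
        have : 0 < e - g := by omega
        exact_mod_cast this
      positivity
    have hα1 : α < 1 := lt_of_lt_of_le hβ hβ1
    have hm1 : 1 < 1 + (β - α) ^ 2 / (α * (1 - α)) := by
      have : 0 < (β - α) ^ 2 / (α * (1 - α)) := by
        apply div_pos
        · have : 0 < β - α := by linarith
          positivity
        · exact mul_pos hα0 (by linarith)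
      linarith
    refine V11263.PCu.windows_of_sieve
      (fun q Y => badSum (fun p h₁ h₂ => HasSol (ρ p h₁ h₂) (member (ρ p h₁ h₂) b c U B C q) e) Y)
      (fun q Y Z h => badSum_mono _ h) hm1 hβ1 ?_ v τ θ hv hτ hE hθ1
    intro θ' K hθ'
    obtain ⟨C', hC⟩ := Pool.Agent.TH924.PC.deviate (n := e - g) (d := d * m) (P₁ := N₀) h1 (by omega) K hβ hβ1 hθ'
    refine ⟨C', fun X hX => ?_⟩
    have h := hC (fun p q => ∀ (h₁ : p.Prime) (h₂ : N₀ < p),
      HasSol (ρ p h₁ h₂) (member (ρ p h₁ h₂) b c U B C q) e) ?_ X hX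
    · have hb : ∀ q : ℤ, badSum (fun p h₁ h₂ => HasSol (ρ p h₁ h₂) (member (ρ p h₁ h₂) b c U B C q) e) (X ^ θ') =
          ∑ p ∈ Icc 1 ⌊X ^ θ'⌋₊ with p.Prime ∧ ¬ (∀ (h₁ : p.Prime) (h₂ : N₀ < p),
            HasSol (ρ p h₁ h₂) (member (ρ p h₁ h₂) b c U B C q) e), Real.log p / p := by
        intro q
        unfold badSum
        refine Finset.sum_congr (Finset.filter_congr fun p _ => ?_) (fun _ _ => rfl)
        constructor
        · rintro ⟨h₁, h₂, h₃⟩
          exact ⟨h₁, fun h => h₃ (h h₁ h₂)⟩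
        · rintro ⟨_, h₂⟩
          push Not at h₂
          exact h₂
      simp only [hb]
      convert h
    · intro p hp hN T hT
      exact classes (ρ p hp hN) hp hd (by omega) b c U B C (h₀ p hp hN) T fun t ht => by
        obtain ⟨q, hq, h⟩ := hT t ht
        exact ⟨q, hq, h hp hN⟩
  · intro R _ p hp ρ r M hM
    have := Fact.mk hp
    exact V11263.PCu.sol_of_pcurv (p := p) ρ.D_t ρ.D_pow M hM
  · intro α h0 h1
    unfold sExp
    have h2 : (1 : ℝ) - α ≠ 0 := by linarith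
    have e : 1 + (1 - α) ^ 2 / (α * (1 - α)) = 1 / α := by
      field_simp
      ring
    rw [e, one_div_one_div]

end Pool.Agent.Results.MP_5e5ff1_ag.WindowsOfSystems
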